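import Pool.Agent.MGE.EXC

set_option autoImplicit false

namespace Pool.Agent.Results.MP_f10237_gt.ExactCase

/-- The Meissner bound holds for every nonempty compact convex set in three-space of constant
width one that contains four points at mutual distances one. -/
theorem result :
    ∀ C : Set (EuclideanSpace ℝ (Fin 3)),
      C.Nonempty → IsCompact C → Convex ℝ C →
      (∀ u : EuclideanSpace ℝ (Fin 3), ‖u‖ = 1 →
        sSup ((fun x => @inner ℝ (EuclideanSpace ℝ (Fin 3)) _ x u) '' C)
          - sInf ((fun x => @inner ℝ (EuclideanSpace ℝ (Fin 3)) _ x u) '' C) = 1) →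
      (∃ p : Fin 4 → EuclideanSpace ℝ (Fin 3), (∀ i, p i ∈ C) ∧
        ∀ i j, i ≠ j → dist (p i) (p j) = 1) →
      ENNReal.ofReal ((2 / 3 - Real.sqrt 3 / 4 * Real.arccos (1 / 3)) * Real.pi)
        ≤ MeasureTheory.volume C := by
  rintro C h1 h2 h3 h4 ⟨p, hp, hd⟩
  exact Pool.Agent.MGE.exact_case ⟨h1, h2, h3, h4⟩ hp hd

end Pool.Agent.Results.MP_f10237_gt.ExactCase
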