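import Pool.Agent.MEIS.FIN

set_option autoImplicit false

namespace Pool.Agent.Results.MP_f10237_gt.VolumeLowerBound

/-- Every nonempty compact convex set in three-space of constant width one has volume at least
`0.4105` (the conjectured minimum is `0.41986...`). -/
theorem result :
    ∀ C : Set (EuclideanSpace ℝ (Fin 3)),
      C.Nonempty → IsCompact C → Convex ℝ C →
      (∀ u : EuclideanSpace ℝ (Fin 3), ‖u‖ = 1 →
        sSup ((fun x => @inner ℝ (EuclideanSpace ℝ (Fin 3)) _ x u) '' C)
          - sInf ((fun x => @inner ℝ (EuclideanSpace ℝ (Fin 3)) _ x u) '' C) = 1) →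
      ENNReal.ofReal (4105 / 10000) ≤ MeasureTheory.volume C := by
  intro C h1 h2 h3 h4
  exact Pool.Agent.MEIS.main_all ⟨h1, h2, h3, h4⟩

end Pool.Agent.Results.MP_f10237_gt.VolumeLowerBound
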